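import Pool.Agent.helper81.PJ.Spec
import Pool.Agent.helper94.PY2.CS

/-! Row CSA of PJ (Cauchy in the cells, with `A` kept). -/

set_option autoImplicit false

open Finset

namespace Pool.Agent.PJ

open Pool.Agent.PY2

theorem CSA : CSA_stmt := by
  intro p _ χ N L E A B β hA _ hE hβ hcell
  unfold WW
  set D : ℕ → ℝ := fun j => ((cl B L j).card : ℝ) with hD
  set S : ℕ → ℝ := fun j => ∑ n ∈ A, ‖∑ b ∈ cl B L j, β b * χ ((n : ZMod p) + b)‖ with hS
  set G : ℕ → ℝ := fun j => ∑ z ∈ pr B L j, ‖Gc χ N z.1 z.2‖ with hG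
  have hD0 : ∀ j, 0 ≤ D j := fun j => Nat.cast_nonneg _
  have hG0 : ∀ j, 0 ≤ G j := fun j => Finset.sum_nonneg fun _ _ => norm_nonneg _
  have hDsum : ∑ j ∈ range p, D j = B.card := by
    have h := CS_cells L B (fun _ => (1 : ℝ))
    simp only [Finset.sum_const, nsmul_eq_mul, mul_one] at h
    exact h.symm
  have h1 : ∑ n ∈ A, ‖∑ b ∈ B, β b * χ ((n : ZMod p) + b)‖ ≤ ∑ j ∈ range p, S j := by
    rw [hS]
    simp only
    rw [Finset.sum_comm]
    apply Finset.sum_le_sum
    intro n _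
    rw [CS_cells L B (fun b => β b * χ ((n : ZMod p) + b))]
    exact norm_sum_le _ _
  have h0 : 0 ≤ ∑ n ∈ A, ‖∑ b ∈ B, β b * χ ((n : ZMod p) + b)‖ :=
    Finset.sum_nonneg fun _ _ => norm_nonneg _
  have h2 : ∀ j, S j ^ 2 ≤ A.card * (N * D j + 2 * G j) := by
    intro j
    have h3 : S j ^ 2 ≤ A.card * ∑ n ∈ A, ‖∑ b ∈ cl B L j, β b * χ ((n : ZMod p) + b)‖ ^ 2 :=
      sq_sum_le_card_mul_sum_sq
    refine h3.trans (mul_le_mul_of_nonneg_left ?_ (Nat.cast_nonneg _))
    refine le_trans ?_ (CS_cell χ N L j B β hβ)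
    exact Finset.sum_le_sum_of_subset_of_nonneg hA fun _ _ _ => sq_nonneg _
  have h5 : (∑ j ∈ range p, S j) ^ 2 ≤ (∑ j ∈ range p, D j) *
      ∑ j ∈ range p, (A.card : ℝ) * (N * (D j / E) + 2 * ((D j)⁻¹ * G j)) := by
    apply Finset.sum_sq_le_sum_mul_sum_of_sq_le_mul
    · intro j _
      exact hD0 j
    · intro j _
      have := hD0 j
      have := hG0 j
      positivity
    · intro j _
      rcases hcell j with h | h
      · have h6 : S j = 0 := by
          rw [hS]
          simp only [h, Finset.sum_empty, norm_zero, Finset.sum_const_zero]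
        have h7 : D j = 0 := by
          rw [hD]
          simp only [h, Finset.card_empty, Nat.cast_zero]
        rw [h6, h7]
        simp
      · have h8 : E ≤ D j := h
        have h9 : 0 < D j := lt_of_lt_of_le hE h8
        have h10 : 1 ≤ D j / E := (one_le_div hE).2 h8
        have h11 : (A.card : ℝ) * (N * D j + 2 * G j) ≤
            D j * ((A.card : ℝ) * (N * (D j / E) + 2 * ((D j)⁻¹ * G j))) := by
          have h12 : D j * ((A.card : ℝ) * (N * (D j / E) + 2 * ((D j)⁻¹ * G j))) =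
              A.card * (N * (D j * (D j / E)) + 2 * ((D j * (D j)⁻¹) * G j)) := by ring
          rw [h12, mul_inv_cancel₀ h9.ne', one_mul]
          apply mul_le_mul_of_nonneg_left _ (Nat.cast_nonneg _)
          apply add_le_add_left
          apply mul_le_mul_of_nonneg_left _ (Nat.cast_nonneg _)
          nlinarith
        exact (h2 j).trans h11
  have h6 : ∑ j ∈ range p, (A.card : ℝ) * (N * (D j / E) + 2 * ((D j)⁻¹ * G j)) =
      A.card * (N * B.card / E + 2 * ∑ j ∈ range p, (D j)⁻¹ * G j) := by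
    rw [← Finset.mul_sum, Finset.sum_add_distrib, ← Finset.mul_sum, ← Finset.mul_sum,
      ← Finset.sum_div, hDsum, mul_div_assoc]
  rw [h6, hDsum, ← mul_assoc] at h5
  exact (pow_le_pow_left₀ h0 h1 2).trans h5

end Pool.Agent.PJ
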